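import Mathlib
import Pool.Agent.Helper97.RK.Stmts
import Pool.Agent.Helper17.RS.Sheet
import Pool.Agent.Helper70.RT.Sheet

/-! # Statements for `N_9(H) ≥ H ^ (5/36 - ε)` (MP_798d7d_nt)

FAMILY (as in `Helper70/RT/Sheet.lean`: `y² = (G + z²)² - 4 f`, `f = ∏ (x - x_i)`), with four parameters
`u = (S, p, q, w)`: the `x_i` are `S + P + Q + W`, `S + P - Q - W`, `S - P + Q - W`, `S - P - Q + W`
with `(P, Q, W) = (2p, 2q, w)`, and the same with `-S`, `(P, Q, W) = (p, q, 4w)`; the products `P Q W`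
are equal, therefore `f_1 + f_2 - G = (4 S x + c)²`, and `x = (z - c) / (4 S)` is a further rational point:
rank `7 + 1 + 1`.  `u ∼ m³`, `z ∼ m⁸` (`m²⁰` members), `A ∼ m⁴⁸`, `B = O(m⁷⁰)`, height `∼ m¹⁴⁴`.
WINDOW: members with the same `(A, B)` have `|e2 (u) - e2 (u')| ≤ K m²`, so there are at most `m^(20 + ε)`
pairs `(u, u')`, each with less than 100 pairs `(z, z')`.
-/

set_option autoImplicit false

namespace Pool.Helper70.RN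

open Pool.Agent.Helper97.RK (cur)
open Pool.Helper17.RS (RS NR ST_GEN)
open Pool.Helper70.RT (syl)
open Polynomial

section
variable {R : Type*} [CommRing R]

/-- the abscissas (`u = (S, p, q, w)`) -/
def xx (u : Fin 4 → R) : Fin 8 → R :=
  ![u 0 + 2 * u 1 + 2 * u 2 + u 3, u 0 + 2 * u 1 - 2 * u 2 - u 3,
    u 0 - 2 * u 1 + 2 * u 2 - u 3, u 0 - 2 * u 1 - 2 * u 2 + u 3,
    -u 0 + u 1 + u 2 + 4 * u 3, -u 0 + u 1 - u 2 - 4 * u 3,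
    -u 0 - u 1 + u 2 - 4 * u 3, -u 0 - u 1 - u 2 + 4 * u 3]

def n1 (u : Fin 4 → R) : R := 4 * u 1 ^ 2 + 4 * u 2 ^ 2 + u 3 ^ 2
def n2 (u : Fin 4 → R) : R := u 1 ^ 2 + u 2 ^ 2 + 16 * u 3 ^ 2
def m1 (u : Fin 4 → R) : R :=
  16 * u 1 ^ 2 * u 2 ^ 2 + 4 * u 1 ^ 2 * u 3 ^ 2 + 4 * u 2 ^ 2 * u 3 ^ 2
def m2 (u : Fin 4 → R) : R :=
  u 1 ^ 2 * u 2 ^ 2 + 16 * u 1 ^ 2 * u 3 ^ 2 + 16 * u 2 ^ 2 * u 3 ^ 2
def pr (u : Fin 4 → R) : R := 4 * u 1 * u 2 * u 3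
def cc (u : Fin 4 → R) : R := n1 u - n2 u
def e2 (u : Fin 4 → R) : R := -4 * u 0 ^ 2 - 2 * (n1 u + n2 u)
def e3 (u : Fin 4 → R) : R := 4 * u 0 * cc u + 16 * pr u
def g0 (u : Fin 4 → R) : R :=
  2 * u 0 ^ 4 - 2 * u 0 ^ 2 * (n1 u + n2 u) + 2 * n1 u * n2 u - 4 * (m1 u + m2 u)
def l1 (u : Fin 4 → R) : R := 8 * u 0 ^ 3 - 4 * u 0 * (n1 u + n2 u)
def d0 (u : Fin 4 → R) : R :=
  -2 * u 0 ^ 2 * cc u + 16 * u 0 * pr u + n1 u ^ 2 - n2 u ^ 2 - 4 * (m1 u - m2 u)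
def h3 (u : Fin 4 → R) : R :=
  -16 * u 0 * d0 u + 4 * cc u * l1 u - 16 * e2 u * u 0 * cc u + 32 * e3 u * u 0 ^ 2 -
    256 * u 0 ^ 3 * cc u
def h2 (u : Fin 4 → R) : R :=
  l1 u ^ 2 - 4 * cc u * d0 u - 2 * (e2 u * cc u ^ 2 - 8 * e3 u * u 0 * cc u +
    16 * g0 u * u 0 ^ 2) - 96 * u 0 ^ 2 * cc u ^ 2
def h1 (u : Fin 4 → R) : R :=
  -2 * l1 u * d0 u - 2 * (-(e3 u * cc u ^ 2) + 8 * g0 u * u 0 * cc u) - 16 * u 0 * cc u ^ 3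
def h0 (u : Fin 4 → R) : R := d0 u ^ 2 - 2 * g0 u * cc u ^ 2 - cc u ^ 4

/-- the quartic, `t = z²` -/
def q4 (t : R) : R := 4 * t
def q3 (u : Fin 4 → R) : R := h3 u
def q2 (u : Fin 4 → R) (t : R) : R := 2 * e2 u * t + h2 u
def q1 (u : Fin 4 → R) (t : R) : R := -2 * e3 u * t + h1 u
def q0 (u : Fin 4 → R) (t : R) : R := t ^ 2 + 2 * g0 u * t + h0 u

/-- the invariants: in `t` of degree 3 with leading coefficient `48`, and of degree 4 with leading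
coefficient `576 * e2 u` -/
def fI (u : Fin 4 → R) (t : R) : R := 12 * q4 t * q0 u t - 3 * q3 u * q1 u t + q2 u t ^ 2
def fJ (u : Fin 4 → R) (t : R) : R :=
  72 * q4 t * q2 u t * q0 u t + 9 * q3 u * q2 u t * q1 u t -
    27 * q4 t * q1 u t ^ 2 - 27 * q0 u t * q3 u ^ 2 - 2 * q2 u t ^ 3

/-- the ordinate at `x` (one of the `x_i`) -/
def yv (u : Fin 4 → R) (t x : R) : R := 2 * x ^ 4 + e2 u * x ^ 2 - e3 u * x + g0 u + t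

/-- twelve times the abscissa (times `ζ²`) belonging to the point `(η / ζ, w / ζ²)` -/
def xN (u : Fin 4 → R) (z η ζ w : R) : R :=
  6 * q4 (z ^ 2) * η ^ 2 + 3 * q3 u * η * ζ + q2 u (z ^ 2) * ζ ^ 2 + 12 * z * w

/-- the ordinate of the further point, `η = z - c`, `ζ = 4 S` -/
def wv (u : Fin 4 → R) (η : R) : R :=
  -2 * η ^ 3 - 2 * cc u * η ^ 2 - l1 u * η * (4 * u 0) + d0 u * (4 * u 0) ^ 2

/-- `I` and `J` as polynomials in `t` -/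
noncomputable def pI (u : Fin 4 → R) : R[X] := fI (fun i => C (u i)) X
noncomputable def pJ (u : Fin 4 → R) : R[X] := fJ (fun i => C (u i)) X

/-- the resultant -/
noncomputable def Ru (u : Fin 4 → R) : R := (syl (pI u) (pJ u)).det
end

/-- a point at which the resultant is not zero -/
def vb : Fin 4 → ℤ := ![1, 1, 1, 0]
/-- the bound for the small primes and the modulus (never to be evaluated) -/
noncomputable def QQ : ℕ := (Ru vb).natAbs + 10000000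
noncomputable def MM : ℤ := 1728 * (Nat.factorial QQ : ℤ)

/-- the parameters `(u, z)` -/
abbrev Par : Type := (Fin 4 → ℤ) × ℤ
/-- the base, `z = 15` -/
def ub : Fin 4 → ℤ := ![1, -4, 1, -5]
def Cong (w : Par) : Prop := (∀ i, MM ∣ w.1 i - ub i) ∧ MM ∣ w.2 - 15

def cA (w : Par) : ℤ := (-(fI w.1 (w.2 ^ 2))) / 48
def cB (w : Par) : ℤ := (-(fJ w.1 (w.2 ^ 2))) / 1728

/-- the members of size `m` -/
noncomputable def uu (a : Fin 4 → ℕ) : Fin 4 → ℤ := fun i => ub i + MM * (a i : ℤ)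
noncomputable def ww (m : ℕ) (T : (Fin 4 → ℕ) × ℕ) : Par :=
  (uu T.1, 15 + MM * ((m : ℤ) ^ 8 + (T.2 : ℤ)))
def Box (m : ℕ) : Finset ((Fin 4 → ℕ) × ℕ) :=
  (Fintype.piFinset fun _ => Finset.range (m ^ 3)) ×ˢ Finset.range (m ^ 8)

/-- the nine points: `px / pv²` -/
def px (w : Par) (j : Fin 9) : ℤ :=
  if h : (j : ℕ) < 7 then
    3 * xN w.1 w.2 (xx w.1 ⟨j, by omega⟩) 1 (yv w.1 (w.2 ^ 2) (xx w.1 ⟨j, by omega⟩))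
  else if (j : ℕ) = 7 then
    3 * (3 * q3 w.1 ^ 2 - 8 * q4 (w.2 ^ 2) * q2 w.1 (w.2 ^ 2))
  else
    3 * xN w.1 w.2 (w.2 - cc w.1) (4 * w.1 0) (wv w.1 (w.2 - cc w.1))
def pv (w : Par) (j : Fin 9) : ℤ :=
  if (j : ℕ) < 7 then 6 else if (j : ℕ) = 7 then 24 * w.2 else 24 * w.1 0

/-! ## The family -/

/-- REL: `fI`, `fJ` at `w` are congruent to their values at the base modulo `MM`. -/
def ST_REL : Prop := ∀ w : Par, Cong w →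
  48 * cA w = -(fI w.1 (w.2 ^ 2)) ∧ 1728 * cB w = -(fJ w.1 (w.2 ^ 2)) ∧
  ((QQ.factorial : ℕ) : ℤ) ∣ cA w + 12412515182977 ∧
  ((QQ.factorial : ℕ) : ℤ) ∣ cB w - 16884929563994163904

/-- PTS (from `RT.ST_PT1`, `RT.ST_PT2`, REL), `W = 2 z`.  Identities (ring): for each `i`,
`yv² = q4 x_i⁴ + q3 x_i³ + q2 x_i² + q1 x_i + q0`; `wv² = q4 η⁴ + q3 η³ ζ + q2 η² ζ² + q1 η ζ³ +
q0 ζ⁴` for `η = z - cc`, `ζ = 4 S`, `t = z²` (with `ℓ = η / ..`: `q = (t - ℓ²)(2 G + t + ℓ²) + δ²`).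
At the base `pv = (6, 6, 6, 6, 6, 6, 6, 360, 24)` (not zero modulo 7). -/
def ST_PTS : Prop := ∀ w : Par, Cong w → ∀ j : Fin 9, pv w j ≠ 0 ∧
  ∃ y : ℚ, y ^ 2 = ((px w j : ℚ) / (pv w j : ℚ) ^ 2) ^ 3 +
    (cA w : ℚ) * ((px w j : ℚ) / (pv w j : ℚ) ^ 2) + (cB w : ℚ)

/-- CERT (from REL, PTS, RANKQ).  `gcd(A, B) = 1` at the base (`A = -12412515182977`,
`B = 16884929563994163904`); no root modulo 13; the characters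
`(q, e)`: signs of `px j - e (pv j)²`, `j = 0, .., 8`:
`(7, 3): (+,-,-,-,+,-,-,+,+)`; `(7, 5): (+,+,-,-,+,+,+,-,-)`; `(11, 4): (-,+,+,+,-,-,+,+,+)`;
`(17, 0): (-,+,+,+,-,-,-,-,-)`; `(19, 4): (-,-,-,+,-,-,+,+,-)`; `(23, 10): (+,-,+,+,-,-,-,+,+)`;
`(29, 0): (-,+,+,-,-,+,-,-,-)`; `(29, 6): (-,-,+,-,+,+,+,+,+)`; `(37, 30): (+,+,-,-,-,-,+,+,+)`
(nonsingular, independent over `𝔽₂`).  Compare `Helper44/RT/CERT.lean`. -/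
def ST_CERT : Prop := ∀ w : Par, Cong w →
  4 * cA w ^ 3 + 27 * cB w ^ 2 ≠ 0 ∧
  (∀ q : ℕ, q.Prime → q ≤ QQ → ¬ ((q : ℤ) ∣ cA w ∧ (q : ℤ) ∣ cB w)) ∧
  (9 : Cardinal) ≤ Module.rank ℤ ((cur (cA w) (cB w)).toAffine).Point

/-- BND (from REL): `|u_i| ≤ C m³`, `|z| ≤ C m⁸`; `I = 48 t³ + I2 t² + I1 t + I0` with `I_k` of weight
`12 - 4 k`, `J = 576 e2 t⁴ + ..` of weight 18; `m⁷⁰ ≤ m⁷²`. -/
def ST_BND : Prop := ∃ C : ℤ, 1 ≤ C ∧ ∀ m : ℕ, 1 ≤ m → ∀ T ∈ Box m,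
  |cA (ww m T)| ≤ C * (m : ℤ) ^ 48 ∧ |cB (ww m T)| ≤ C * (m : ℤ) ^ 72

/-! ## Sieve -/

/-- R9: `Ru vb` is not zero (modulo 5; compare `Helper53/RT/R10.lean`). -/
def ST_R9 : Prop := Ru vb ≠ 0

/-- RDEG: as in RT, from R9. -/
def ST_RDEG : Prop := ∀ q : ℕ, q.Prime → QQ < q → ∃ P : MvPolynomial (Fin 4) (ZMod q),
  P ≠ 0 ∧ P.totalDegree ≤ 1000 ∧ ∀ u : Fin 4 → ZMod q, MvPolynomial.eval u P = Ru u

/-- RNZ: `Ru ub` is 2 modulo 5, not zero (`pI ub = 48 t³ + 8174080 t² - 40562208768 t +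
604512866205696`, `pJ ub = -589824 t⁴ - 25577689088 t³ - 606086212681728 t² +
9156567668955807744 t - 31206410040060791488512`); crude bound. -/
def ST_RNZ : Prop := ∃ C : ℕ, 1 ≤ C ∧ ∀ m : ℕ, 1 ≤ m → ∀ T ∈ Box m,
  Ru (uu T.1) ≠ 0 ∧ |Ru (uu T.1)| ≤ C * (m : ℤ) ^ 1000

open Classical in
/-- SVS (from REL, `RT.ST_RES`, RDEG), small primes `q ≤ m³`: at most `1000 q³` residues of `u`, each at
most `(m³ / q + 1)⁴ ≤ (2 m³ / q)⁴` times; for each at most `6 (m⁸ / q + 1) ≤ 12 m⁸ / q` values of `z`. -/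
def ST_SVS : Prop := ∀ m q : ℕ, q.Prime → QQ < q → q ≤ m ^ 3 →
  ((Box m).filter (fun T => (q : ℤ) ∣ cA (ww m T) ∧ (q : ℤ) ∣ cB (ww m T))).card * q ^ 2 ≤
    1000000 * m ^ 20

open Classical in
/-- SVL (from REL, `RT.ST_RES`, RNZ), large primes `q > m³`: at most `K` of them divide `Ru ≠ 0`
(`m ≥ 2`); for each at most `6 (m⁸ / q + 1) ≤ 12 m⁵` values of `z`. -/
def ST_SVL : Prop := ∃ K : ℕ, ∀ m : ℕ, 2 ≤ m →
  ((Box m).filter (fun T => ∃ q : ℕ, q.Prime ∧ m ^ 3 < q ∧ QQ < q ∧ (q : ℤ) ∣ cA (ww m T) ∧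
    (q : ℤ) ∣ cB (ww m T))).card ≤ K * m ^ 17

open Classical in
/-- SIEVE (from SVS, SVL). -/
def ST_SIEVE : Prop := ∃ m0 : ℕ, ∀ m : ℕ, m0 ≤ m →
  2 * ((Box m).filter (fun T => ∃ q : ℕ, q.Prime ∧ QQ < q ∧ (q : ℤ) ∣ cA (ww m T) ∧
    (q : ℤ) ∣ cB (ww m T))).card ≤ m ^ 20

/-! ## Collisions -/

/-- INJ (compare `Helper70/RT/INJ.lean`: the relation `Q` there with five differences).  `p = 11`;
differences `(S' - S, p' - p, q' - q, w' - w, β)`; rows modulo 11 of `fI` at `τ = 0, 1, 2`: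
`(10, 6, 0, 0, 7)`, `(10, 10, 5, 7, 1)`, `(10, 0, 5, 10, 8)`, of `fJ` at `τ = 0, 1`: `(4, 1, 5, 4, 6)`,
`(2, 4, 6, 7, 9)`; determinant 8. -/
def ST_INJ : Prop := ∀ w w' : Par, Cong w → Cong w' → ∀ β : ℤ, (11 : ℤ) ∣ β →
  (∀ τ : ℤ, fI w'.1 (τ + β) = fI w.1 τ ∧ fJ w'.1 (τ + β) = fJ w.1 τ) → w.1 = w'.1

/-- WIN (from REL): `m¹⁶ ≤ t, t' ≤ C m¹⁶`; `fI = 48 t³ + O(m¹²) t² + O(m²⁴) t + O(m³⁶)`, so
`|t - t'| m³² ≤ C m⁴⁴`; `fJ = 576 e2 t⁴ + O(m¹⁸) t³ + ..` (weights), so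
`|e2 - e2'| m⁶⁴ ≤ C m⁶⁶`. -/
def ST_WIN : Prop := ∃ K : ℤ, 1 ≤ K ∧ ∀ m : ℕ, 1 ≤ m → ∀ T ∈ Box m, ∀ T' ∈ Box m,
  cA (ww m T) = cA (ww m T') → cB (ww m T) = cB (ww m T') →
  |e2 (ww m T).1 - e2 (ww m T').1| ≤ K * (m : ℤ) ^ 2

open Classical in
/-- PR2.  `e2 = -(4 S² + 10 p² + 10 q² + 34 w²)`.  For given `n` with `|n| ≤ K m²` and `p, .., w'`:
`4 (S² - S'²) = n'`; for `n' ≠ 0` at most `C m^ε` solutions (divisors); for `n' = 0` at most `2 m³`,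
and then `10 (p² - p'²) + 10 (q² - q'²) + 34 (w² - w'²) = n`: at most `(2 K m² + 1) m¹² C m^ε + 2 m³ m¹²`
(the same argument with `p`) tuples.  Total `≤ C m^(20 + ε)`. -/
def ST_PR2 : Prop := ∀ K : ℤ, ∀ ε : ℝ, 0 < ε → ∃ C : ℝ, 0 < C ∧ ∀ m : ℕ, 1 ≤ m →
  ((((Fintype.piFinset fun _ : Fin 4 => Finset.range (m ^ 3)) ×ˢ
    (Fintype.piFinset fun _ : Fin 4 => Finset.range (m ^ 3))).filter (fun p =>
      |e2 (uu p.1) - e2 (uu p.2)| ≤ K * (m : ℤ) ^ 2)).card : ℝ) ≤ C * (m : ℝ) ^ (20 + ε)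

open Classical in
/-- PAIR (from REL, `RT.ST_CURVE`, INJ, WIN, PR2): for `u ≠ u'` less than 100 pairs `(z, z')` (`t = z²`,
`z > 0`, `e2 ≠ 0`, `β = z'² - z²` divisible by 11); for `u = u'` at most 3 values of `z'` for each `z`. -/
def ST_PAIR : Prop := ∀ ε : ℝ, 0 < ε → ∃ K : ℝ, 0 < K ∧ ∀ m : ℕ, 1 ≤ m →
  (((Box m ×ˢ Box m).filter (fun p => cA (ww m p.1) = cA (ww m p.2) ∧
    cB (ww m p.1) = cB (ww m p.2))).card : ℝ) ≤ K * (m : ℝ) ^ (20 + ε)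

/-! ## The theorem -/

/-- FIN (from CERT, BND, SIEVE, PAIR, ST_GEN).  `N = m¹²`, at least `(m²⁰ / 2)² / (K m^(20 + ε))`
different pairs in `RS 9 C N`; ST_GEN with `e = 5 / 3 - ε / 12`.  Compare `Helper17/R9/FINB.lean`. -/
def ST_FIN : Prop := ∀ ε : ℝ, 0 < ε → ∃ H₀ : ℝ, ∀ H : ℝ, H₀ ≤ H →
  H ^ ((5 : ℝ) / 36 - ε) ≤ (NR 9 H : ℝ)

end Pool.Helper70.RN
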