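import Mathlib
import Pool.Agent.Helper70.RN.Sheet

/-! # Row INJ (rank nine, four parameters) -/

set_option autoImplicit false

namespace Pool.Helper70.RN

namespace S70

/-- first order expansions modulo 11 -/
structure Q (δ : Fin 5 → ℤ) (F F' v : ℤ) (l : Fin 5 → ℤ) : Prop where
  h0 : (11 : ℤ) ∣ F - v
  h1 : (11 : ℤ) ∣ F' - v
  h2 : ∃ D : Fin 5 → ℤ, F' - F = ∑ i, D i * δ i ∧ ∀ i, (11 : ℤ) ∣ D i - l i

theorem Q.add {δ : Fin 5 → ℤ} {F F' v F2 F2' v2 : ℤ} {l l2 : Fin 5 → ℤ} (h : Q δ F F' v l)
    (k : Q δ F2 F2' v2 l2) : Q δ (F + F2) (F' + F2') (v + v2) (fun i => l i + l2 i) := by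
  obtain ⟨h0, h1, D, h3, h4⟩ := h
  obtain ⟨k0, k1, D2, k3, k4⟩ := k
  refine ⟨?_, ?_, fun i => D i + D2 i, ?_, fun i => ?_⟩
  · have e : F + F2 - (v + v2) = (F - v) + (F2 - v2) := by ring
    rw [e]; exact dvd_add h0 k0
  · have e : F' + F2' - (v + v2) = (F' - v) + (F2' - v2) := by ring
    rw [e]; exact dvd_add h1 k1
  · simp only [add_mul, Finset.sum_add_distrib]
    rw [← h3, ← k3]; ring
  · have e : D i + D2 i - (l i + l2 i) = (D i - l i) + (D2 i - l2 i) := by ring
    show (11 : ℤ) ∣ D i + D2 i - (l i + l2 i)
    rw [e]; exact dvd_add (h4 i) (k4 i)

theorem Q.const {δ : Fin 5 → ℤ} (v : ℤ) : Q δ v v v (fun _ => 0) :=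
  ⟨by simp, by simp, fun _ => 0, by simp, fun _ => by simp⟩

theorem Q.mul {δ : Fin 5 → ℤ} {F F' v F2 F2' v2 : ℤ} {l l2 : Fin 5 → ℤ} (h : Q δ F F' v l)
    (k : Q δ F2 F2' v2 l2) :
    Q δ (F * F2) (F' * F2') (v * v2) (fun i => l i * v2 + v * l2 i) := by
  obtain ⟨h0, h1, D, h3, h4⟩ := h
  obtain ⟨k0, k1, D2, k3, k4⟩ := k
  refine ⟨?_, ?_, fun i => D i * F2' + F * D2 i, ?_, fun i => ?_⟩
  · have e : F * F2 - v * v2 = (F - v) * F2 + v * (F2 - v2) := by ring
    rw [e]; exact dvd_add (h0.mul_right _) (k0.mul_left _)
  · have e : F' * F2' - v * v2 = (F' - v) * F2' + v * (F2' - v2) := by ring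
    rw [e]; exact dvd_add (h1.mul_right _) (k1.mul_left _)
  · have e : ∀ i, (D i * F2' + F * D2 i) * δ i = F2' * (D i * δ i) + F * (D2 i * δ i) := by
      intro i; ring
    simp only [e, Finset.sum_add_distrib, ← Finset.mul_sum]
    rw [← h3, ← k3]; ring
  · have e : D i * F2' + F * D2 i - (l i * v2 + v * l2 i) =
        (D i - l i) * F2' + l i * (F2' - v2) + ((F - v) * D2 i + v * (D2 i - l2 i)) := by ring
    show (11 : ℤ) ∣ D i * F2' + F * D2 i - (l i * v2 + v * l2 i)
    rw [e]
    exact dvd_add (dvd_add ((h4 i).mul_right _) (k1.mul_left _))
      (dvd_add (h0.mul_right _) ((k4 i).mul_left _))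

theorem Q.neg {δ : Fin 5 → ℤ} {F F' v : ℤ} {l : Fin 5 → ℤ} (h : Q δ F F' v l) :
    Q δ (-F) (-F') (-v) (fun i => -l i) := by
  obtain ⟨h0, h1, D, h3, h4⟩ := h
  refine ⟨?_, ?_, fun i => -D i, ?_, fun i => ?_⟩
  · have e : -F - -v = -(F - v) := by ring
    rw [e]; exact (dvd_neg).2 h0
  · have e : -F' - -v = -(F' - v) := by ring
    rw [e]; exact (dvd_neg).2 h1
  · simp only [neg_mul, Finset.sum_neg_distrib]
    rw [← h3]; ring
  · have e : -D i - -l i = -(D i - l i) := by ring
    show (11 : ℤ) ∣ -D i - -l i
    rw [e]; exact (dvd_neg).2 (h4 i)

theorem Q.sub {δ : Fin 5 → ℤ} {F F' v F2 F2' v2 : ℤ} {l l2 : Fin 5 → ℤ} (h : Q δ F F' v l)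
    (k : Q δ F2 F2' v2 l2) : Q δ (F - F2) (F' - F2') (v + -v2) (fun i => l i + -l2 i) := by
  rw [sub_eq_add_neg, sub_eq_add_neg]
  exact h.add k.neg

theorem Q.congr {δ : Fin 5 → ℤ} {F F' v v2 : ℤ} {l l2 : Fin 5 → ℤ} (h : Q δ F F' v l)
    (h1 : (11 : ℤ) ∣ v - v2) (h2 : ∀ i, (11 : ℤ) ∣ l i - l2 i) : Q δ F F' v2 l2 := by
  obtain ⟨k0, k1, D, k3, k4⟩ := h
  refine ⟨?_, ?_, D, k3, fun i => ?_⟩
  · have e : F - v2 = (F - v) + (v - v2) := by ring
    rw [e]; exact dvd_add k0 h1
  · have e : F' - v2 = (F' - v) + (v - v2) := by ring
    rw [e]; exact dvd_add k1 h1
  · have e : D i - l2 i = (D i - l i) + (l i - l2 i) := by ring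
    rw [e]; exact dvd_add (k4 i) (h2 i)

/-- the derivative of a power -/
def dp (v l : ℤ) : ℕ → ℤ
  | 0 => 0
  | k + 1 => dp v l k * v + v ^ k * l

theorem Q.pow {δ : Fin 5 → ℤ} {F F' v : ℤ} {l : Fin 5 → ℤ} (h : Q δ F F' v l) (k : ℕ) :
    Q δ (F ^ k) (F' ^ k) (v ^ k) (fun i => dp v (l i) k) := by
  induction k with
  | zero => simpa [dp] using (Q.const (δ := δ) 1)
  | succ k ih =>
    have := ih.mul h
    rw [pow_succ, pow_succ, pow_succ]
    exact this

theorem lin0 {δ : Fin 5 → ℤ} {u u' : Fin 4 → ℤ} {t t' : ℤ}
    (k0 : Q δ (u 0) (u' 0) 1 ![1, 0, 0, 0, 0]) (k1 : Q δ (u 1) (u' 1) (-4) ![0, 1, 0, 0, 0])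
    (k2 : Q δ (u 2) (u' 2) 1 ![0, 0, 1, 0, 0]) (k3 : Q δ (u 3) (u' 3) (-5) ![0, 0, 0, 1, 0])
    (kt : Q δ t t' 0 ![0, 0, 0, 0, 1]) :
    Q δ (fI u t) (fI u' t') 8 ![10, 6, 0, 0, 7] ∧ Q δ (fJ u t) (fJ u' t') 1 ![4, 1, 5, 4, 6] := by
  have kn1 : Q δ (n1 u) (n1 u') 5 ![0, 1, 8, 1, 0] := by
    unfold n1
    apply Q.congr
    · repeat first
        | exact k0
        | exact k1
        | exact k2
        | exact k3
        | apply Q.add
        | apply Q.sub
        | apply Q.mul
        | apply Q.neg
        | apply Q.pow
        | apply Q.const
    · decide +kernel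
    · decide +kernel
  have kn2 : Q δ (n2 u) (n2 u') 10 ![0, 3, 2, 5, 0] := by
    unfold n2
    apply Q.congr
    · repeat first
        | exact k0
        | exact k1
        | exact k2
        | exact k3
        | apply Q.add
        | apply Q.sub
        | apply Q.mul
        | apply Q.neg
        | apply Q.pow
        | apply Q.const
    · decide +kernel
    · decide +kernel
  have km1 : Q δ (m1 u) (m1 u') 9 ![0, 7, 8, 2, 0] := by
    unfold m1
    apply Q.congr
    · repeat first
        | exact k0
        | exact k1
        | exact k2
        | exact k3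
        | apply Q.add
        | apply Q.sub
        | apply Q.mul
        | apply Q.neg
        | apply Q.pow
        | apply Q.const
    · decide +kernel
    · decide +kernel
  have km2 : Q δ (m2 u) (m2 u') 7 ![0, 4, 7, 8, 0] := by
    unfold m2
    apply Q.congr
    · repeat first
        | exact k0
        | exact k1
        | exact k2
        | exact k3
        | apply Q.add
        | apply Q.sub
        | apply Q.mul
        | apply Q.neg
        | apply Q.pow
        | apply Q.const
    · decide +kernel
    · decide +kernel
  have kpr : Q δ (pr u) (pr u') 3 ![0, 2, 3, 6, 0] := by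
    unfold pr
    apply Q.congr
    · repeat first
        | exact k0
        | exact k1
        | exact k2
        | exact k3
        | apply Q.add
        | apply Q.sub
        | apply Q.mul
        | apply Q.neg
        | apply Q.pow
        | apply Q.const
    · decide +kernel
    · decide +kernel
  have kcc : Q δ (cc u) (cc u') 6 ![0, 9, 6, 7, 0] := by
    unfold cc
    apply Q.congr
    · repeat first
        | exact k0
        | exact k1
        | exact k2
        | exact k3
        | exact kn1
        | exact kn2
        | apply Q.add
        | apply Q.sub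
        | apply Q.mul
        | apply Q.neg
        | apply Q.pow
        | apply Q.const
    · decide +kernel
    · decide +kernel
  have ke2 : Q δ (e2 u) (e2 u') 10 ![3, 3, 2, 10, 0] := by
    unfold e2
    apply Q.congr
    · repeat first
        | exact k0
        | exact k1
        | exact k2
        | exact k3
        | exact kn1
        | exact kn2
        | apply Q.add
        | apply Q.sub
        | apply Q.mul
        | apply Q.neg
        | apply Q.pow
        | apply Q.const
    · decide +kernel
    · decide +kernel
  have ke3 : Q δ (e3 u) (e3 u') 6 ![2, 2, 6, 3, 0] := by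
    unfold e3
    apply Q.congr
    · repeat first
        | exact k0
        | exact k1
        | exact k2
        | exact k3
        | exact kcc
        | exact kpr
        | apply Q.add
        | apply Q.sub
        | apply Q.mul
        | apply Q.neg
        | apply Q.pow
        | apply Q.const
    · decide +kernel
    · decide +kernel
  have kg0 : Q δ (g0 u) (g0 u') 8 ![3, 9, 1, 7, 0] := by
    unfold g0
    apply Q.congr
    · repeat first
        | exact k0
        | exact k1
        | exact k2
        | exact k3
        | exact kn1
        | exact kn2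
        | exact km1
        | exact km2
        | apply Q.add
        | apply Q.sub
        | apply Q.mul
        | apply Q.neg
        | apply Q.pow
        | apply Q.const
    · decide +kernel
    · decide +kernel
  have kl1 : Q δ (l1 u) (l1 u') 3 ![8, 6, 4, 9, 0] := by
    unfold l1
    apply Q.congr
    · repeat first
        | exact k0
        | exact k1
        | exact k2
        | exact k3
        | exact kn1
        | exact kn2
        | apply Q.add
        | apply Q.sub
        | apply Q.mul
        | apply Q.neg
        | apply Q.pow
        | apply Q.const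
    · decide +kernel
    · decide +kernel
  have kd0 : Q δ (d0 u) (d0 u') 8 ![2, 7, 6, 5, 0] := by
    unfold d0
    apply Q.congr
    · repeat first
        | exact k0
        | exact k1
        | exact k2
        | exact k3
        | exact kcc
        | exact kpr
        | exact kn1
        | exact kn2
        | exact km1
        | exact km2
        | apply Q.add
        | apply Q.sub
        | apply Q.mul
        | apply Q.neg
        | apply Q.pow
        | apply Q.const
    · decide +kernel
    · decide +kernel
  have kh3 : Q δ (h3 u) (h3 u') 5 ![3, 0, 7, 8, 0] := by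
    unfold h3
    apply Q.congr
    · repeat first
        | exact k0
        | exact k1
        | exact k2
        | exact k3
        | exact kd0
        | exact kcc
        | exact kl1
        | exact ke2
        | exact ke3
        | apply Q.add
        | apply Q.sub
        | apply Q.mul
        | apply Q.neg
        | apply Q.pow
        | apply Q.const
    · decide +kernel
    · decide +kernel
  have kh2 : Q δ (h2 u) (h2 u') 9 ![6, 1, 1, 3, 0] := by
    unfold h2
    apply Q.congr
    · repeat first
        | exact k0
        | exact k1
        | exact k2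
        | exact k3
        | exact kl1
        | exact kcc
        | exact kd0
        | exact ke2
        | exact ke3
        | exact kg0
        | apply Q.add
        | apply Q.sub
        | apply Q.mul
        | apply Q.neg
        | apply Q.pow
        | apply Q.const
    · decide +kernel
    · decide +kernel
  have kh1 : Q δ (h1 u) (h1 u') 10 ![2, 3, 7, 3, 0] := by
    unfold h1
    apply Q.congr
    · repeat first
        | exact k0
        | exact k1
        | exact k2
        | exact k3
        | exact kl1
        | exact kd0
        | exact ke3
        | exact kcc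
        | exact kg0
        | apply Q.add
        | apply Q.sub
        | apply Q.mul
        | apply Q.neg
        | apply Q.pow
        | apply Q.const
    · decide +kernel
    · decide +kernel
  have kh0 : Q δ (h0 u) (h0 u') 7 ![3, 3, 2, 5, 0] := by
    unfold h0
    apply Q.congr
    · repeat first
        | exact k0
        | exact k1
        | exact k2
        | exact k3
        | exact kd0
        | exact kg0
        | exact kcc
        | apply Q.add
        | apply Q.sub
        | apply Q.mul
        | apply Q.neg
        | apply Q.pow
        | apply Q.const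
    · decide +kernel
    · decide +kernel
  have kq4 : Q δ (q4 t) (q4 t') 0 ![0, 0, 0, 0, 4] := by
    unfold q4
    apply Q.congr
    · repeat first
        | exact kt
        | apply Q.add
        | apply Q.sub
        | apply Q.mul
        | apply Q.neg
        | apply Q.pow
        | apply Q.const
    · decide +kernel
    · decide +kernel
  have kq3 : Q δ (q3 u) (q3 u') 5 ![3, 0, 7, 8, 0] := by
    unfold q3
    apply Q.congr
    · repeat first
        | exact kh3
        | apply Q.add
        | apply Q.sub
        | apply Q.mul
        | apply Q.neg
        | apply Q.pow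
        | apply Q.const
    · decide +kernel
    · decide +kernel
  have kq2 : Q δ (q2 u t) (q2 u' t') 9 ![6, 1, 1, 3, 9] := by
    unfold q2
    apply Q.congr
    · repeat first
        | exact ke2
        | exact kh2
        | exact kt
        | apply Q.add
        | apply Q.sub
        | apply Q.mul
        | apply Q.neg
        | apply Q.pow
        | apply Q.const
    · decide +kernel
    · decide +kernel
  have kq1 : Q δ (q1 u t) (q1 u' t') 10 ![2, 3, 7, 3, 10] := by
    unfold q1
    apply Q.congr
    · repeat first
        | exact ke3
        | exact kh1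
        | exact kt
        | apply Q.add
        | apply Q.sub
        | apply Q.mul
        | apply Q.neg
        | apply Q.pow
        | apply Q.const
    · decide +kernel
    · decide +kernel
  have kq0 : Q δ (q0 u t) (q0 u' t') 7 ![3, 3, 2, 5, 5] := by
    unfold q0
    apply Q.congr
    · repeat first
        | exact kg0
        | exact kh0
        | exact kt
        | apply Q.add
        | apply Q.sub
        | apply Q.mul
        | apply Q.neg
        | apply Q.pow
        | apply Q.const
    · decide +kernel
    · decide +kernel
  have kfI : Q δ (fI u t) (fI u' t') 8 ![10, 6, 0, 0, 7] := by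
    unfold fI
    apply Q.congr
    · repeat first
        | exact kq4
        | exact kq3
        | exact kq2
        | exact kq1
        | exact kq0
        | apply Q.add
        | apply Q.sub
        | apply Q.mul
        | apply Q.neg
        | apply Q.pow
        | apply Q.const
    · decide +kernel
    · decide +kernel
  have kfJ : Q δ (fJ u t) (fJ u' t') 1 ![4, 1, 5, 4, 6] := by
    unfold fJ
    apply Q.congr
    · repeat first
        | exact kq4
        | exact kq3
        | exact kq2
        | exact kq1
        | exact kq0
        | apply Q.add
        | apply Q.sub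
        | apply Q.mul
        | apply Q.neg
        | apply Q.pow
        | apply Q.const
    · decide +kernel
    · decide +kernel
  exact ⟨kfI, kfJ⟩

theorem lin1 {δ : Fin 5 → ℤ} {u u' : Fin 4 → ℤ} {t t' : ℤ}
    (k0 : Q δ (u 0) (u' 0) 1 ![1, 0, 0, 0, 0]) (k1 : Q δ (u 1) (u' 1) (-4) ![0, 1, 0, 0, 0])
    (k2 : Q δ (u 2) (u' 2) 1 ![0, 0, 1, 0, 0]) (k3 : Q δ (u 3) (u' 3) (-5) ![0, 0, 0, 1, 0])
    (kt : Q δ t t' 1 ![0, 0, 0, 0, 1]) :
    Q δ (fI u t) (fI u' t') 10 ![10, 10, 5, 7, 1] ∧ Q δ (fJ u t) (fJ u' t') 10 ![2, 4, 6, 7, 9] := by
  have kn1 : Q δ (n1 u) (n1 u') 5 ![0, 1, 8, 1, 0] := by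
    unfold n1
    apply Q.congr
    · repeat first
        | exact k0
        | exact k1
        | exact k2
        | exact k3
        | apply Q.add
        | apply Q.sub
        | apply Q.mul
        | apply Q.neg
        | apply Q.pow
        | apply Q.const
    · decide +kernel
    · decide +kernel
  have kn2 : Q δ (n2 u) (n2 u') 10 ![0, 3, 2, 5, 0] := by
    unfold n2
    apply Q.congr
    · repeat first
        | exact k0
        | exact k1
        | exact k2
        | exact k3
        | apply Q.add
        | apply Q.sub
        | apply Q.mul
        | apply Q.neg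
        | apply Q.pow
        | apply Q.const
    · decide +kernel
    · decide +kernel
  have km1 : Q δ (m1 u) (m1 u') 9 ![0, 7, 8, 2, 0] := by
    unfold m1
    apply Q.congr
    · repeat first
        | exact k0
        | exact k1
        | exact k2
        | exact k3
        | apply Q.add
        | apply Q.sub
        | apply Q.mul
        | apply Q.neg
        | apply Q.pow
        | apply Q.const
    · decide +kernel
    · decide +kernel
  have km2 : Q δ (m2 u) (m2 u') 7 ![0, 4, 7, 8, 0] := by
    unfold m2
    apply Q.congr
    · repeat first
        | exact k0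
        | exact k1
        | exact k2
        | exact k3
        | apply Q.add
        | apply Q.sub
        | apply Q.mul
        | apply Q.neg
        | apply Q.pow
        | apply Q.const
    · decide +kernel
    · decide +kernel
  have kpr : Q δ (pr u) (pr u') 3 ![0, 2, 3, 6, 0] := by
    unfold pr
    apply Q.congr
    · repeat first
        | exact k0
        | exact k1
        | exact k2
        | exact k3
        | apply Q.add
        | apply Q.sub
        | apply Q.mul
        | apply Q.neg
        | apply Q.pow
        | apply Q.const
    · decide +kernel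
    · decide +kernel
  have kcc : Q δ (cc u) (cc u') 6 ![0, 9, 6, 7, 0] := by
    unfold cc
    apply Q.congr
    · repeat first
        | exact k0
        | exact k1
        | exact k2
        | exact k3
        | exact kn1
        | exact kn2
        | apply Q.add
        | apply Q.sub
        | apply Q.mul
        | apply Q.neg
        | apply Q.pow
        | apply Q.const
    · decide +kernel
    · decide +kernel
  have ke2 : Q δ (e2 u) (e2 u') 10 ![3, 3, 2, 10, 0] := by
    unfold e2
    apply Q.congr
    · repeat first
        | exact k0
        | exact k1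
        | exact k2
        | exact k3
        | exact kn1
        | exact kn2
        | apply Q.add
        | apply Q.sub
        | apply Q.mul
        | apply Q.neg
        | apply Q.pow
        | apply Q.const
    · decide +kernel
    · decide +kernel
  have ke3 : Q δ (e3 u) (e3 u') 6 ![2, 2, 6, 3, 0] := by
    unfold e3
    apply Q.congr
    · repeat first
        | exact k0
        | exact k1
        | exact k2
        | exact k3
        | exact kcc
        | exact kpr
        | apply Q.add
        | apply Q.sub
        | apply Q.mul
        | apply Q.neg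
        | apply Q.pow
        | apply Q.const
    · decide +kernel
    · decide +kernel
  have kg0 : Q δ (g0 u) (g0 u') 8 ![3, 9, 1, 7, 0] := by
    unfold g0
    apply Q.congr
    · repeat first
        | exact k0
        | exact k1
        | exact k2
        | exact k3
        | exact kn1
        | exact kn2
        | exact km1
        | exact km2
        | apply Q.add
        | apply Q.sub
        | apply Q.mul
        | apply Q.neg
        | apply Q.pow
        | apply Q.const
    · decide +kernel
    · decide +kernel
  have kl1 : Q δ (l1 u) (l1 u') 3 ![8, 6, 4, 9, 0] := by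
    unfold l1
    apply Q.congr
    · repeat first
        | exact k0
        | exact k1
        | exact k2
        | exact k3
        | exact kn1
        | exact kn2
        | apply Q.add
        | apply Q.sub
        | apply Q.mul
        | apply Q.neg
        | apply Q.pow
        | apply Q.const
    · decide +kernel
    · decide +kernel
  have kd0 : Q δ (d0 u) (d0 u') 8 ![2, 7, 6, 5, 0] := by
    unfold d0
    apply Q.congr
    · repeat first
        | exact k0
        | exact k1
        | exact k2
        | exact k3
        | exact kcc
        | exact kpr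
        | exact kn1
        | exact kn2
        | exact km1
        | exact km2
        | apply Q.add
        | apply Q.sub
        | apply Q.mul
        | apply Q.neg
        | apply Q.pow
        | apply Q.const
    · decide +kernel
    · decide +kernel
  have kh3 : Q δ (h3 u) (h3 u') 5 ![3, 0, 7, 8, 0] := by
    unfold h3
    apply Q.congr
    · repeat first
        | exact k0
        | exact k1
        | exact k2
        | exact k3
        | exact kd0
        | exact kcc
        | exact kl1
        | exact ke2
        | exact ke3
        | apply Q.add
        | apply Q.sub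
        | apply Q.mul
        | apply Q.neg
        | apply Q.pow
        | apply Q.const
    · decide +kernel
    · decide +kernel
  have kh2 : Q δ (h2 u) (h2 u') 9 ![6, 1, 1, 3, 0] := by
    unfold h2
    apply Q.congr
    · repeat first
        | exact k0
        | exact k1
        | exact k2
        | exact k3
        | exact kl1
        | exact kcc
        | exact kd0
        | exact ke2
        | exact ke3
        | exact kg0
        | apply Q.add
        | apply Q.sub
        | apply Q.mul
        | apply Q.neg
        | apply Q.pow
        | apply Q.const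
    · decide +kernel
    · decide +kernel
  have kh1 : Q δ (h1 u) (h1 u') 10 ![2, 3, 7, 3, 0] := by
    unfold h1
    apply Q.congr
    · repeat first
        | exact k0
        | exact k1
        | exact k2
        | exact k3
        | exact kl1
        | exact kd0
        | exact ke3
        | exact kcc
        | exact kg0
        | apply Q.add
        | apply Q.sub
        | apply Q.mul
        | apply Q.neg
        | apply Q.pow
        | apply Q.const
    · decide +kernel
    · decide +kernel
  have kh0 : Q δ (h0 u) (h0 u') 7 ![3, 3, 2, 5, 0] := by
    unfold h0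
    apply Q.congr
    · repeat first
        | exact k0
        | exact k1
        | exact k2
        | exact k3
        | exact kd0
        | exact kg0
        | exact kcc
        | apply Q.add
        | apply Q.sub
        | apply Q.mul
        | apply Q.neg
        | apply Q.pow
        | apply Q.const
    · decide +kernel
    · decide +kernel
  have kq4 : Q δ (q4 t) (q4 t') 4 ![0, 0, 0, 0, 4] := by
    unfold q4
    apply Q.congr
    · repeat first
        | exact kt
        | apply Q.add
        | apply Q.sub
        | apply Q.mul
        | apply Q.neg
        | apply Q.pow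
        | apply Q.const
    · decide +kernel
    · decide +kernel
  have kq3 : Q δ (q3 u) (q3 u') 5 ![3, 0, 7, 8, 0] := by
    unfold q3
    apply Q.congr
    · repeat first
        | exact kh3
        | apply Q.add
        | apply Q.sub
        | apply Q.mul
        | apply Q.neg
        | apply Q.pow
        | apply Q.const
    · decide +kernel
    · decide +kernel
  have kq2 : Q δ (q2 u t) (q2 u' t') 7 ![1, 7, 5, 1, 9] := by
    unfold q2
    apply Q.congr
    · repeat first
        | exact ke2
        | exact kh2
        | exact kt
        | apply Q.add
        | apply Q.sub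
        | apply Q.mul
        | apply Q.neg
        | apply Q.pow
        | apply Q.const
    · decide +kernel
    · decide +kernel
  have kq1 : Q δ (q1 u t) (q1 u' t') 9 ![9, 10, 6, 8, 10] := by
    unfold q1
    apply Q.congr
    · repeat first
        | exact ke3
        | exact kh1
        | exact kt
        | apply Q.add
        | apply Q.sub
        | apply Q.mul
        | apply Q.neg
        | apply Q.pow
        | apply Q.const
    · decide +kernel
    · decide +kernel
  have kq0 : Q δ (q0 u t) (q0 u' t') 2 ![9, 10, 4, 8, 7] := by
    unfold q0
    apply Q.congr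
    · repeat first
        | exact kg0
        | exact kh0
        | exact kt
        | apply Q.add
        | apply Q.sub
        | apply Q.mul
        | apply Q.neg
        | apply Q.pow
        | apply Q.const
    · decide +kernel
    · decide +kernel
  have kfI : Q δ (fI u t) (fI u' t') 10 ![10, 10, 5, 7, 1] := by
    unfold fI
    apply Q.congr
    · repeat first
        | exact kq4
        | exact kq3
        | exact kq2
        | exact kq1
        | exact kq0
        | apply Q.add
        | apply Q.sub
        | apply Q.mul
        | apply Q.neg
        | apply Q.pow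
        | apply Q.const
    · decide +kernel
    · decide +kernel
  have kfJ : Q δ (fJ u t) (fJ u' t') 10 ![2, 4, 6, 7, 9] := by
    unfold fJ
    apply Q.congr
    · repeat first
        | exact kq4
        | exact kq3
        | exact kq2
        | exact kq1
        | exact kq0
        | apply Q.add
        | apply Q.sub
        | apply Q.mul
        | apply Q.neg
        | apply Q.pow
        | apply Q.const
    · decide +kernel
    · decide +kernel
  exact ⟨kfI, kfJ⟩

theorem lin2 {δ : Fin 5 → ℤ} {u u' : Fin 4 → ℤ} {t t' : ℤ}
    (k0 : Q δ (u 0) (u' 0) 1 ![1, 0, 0, 0, 0]) (k1 : Q δ (u 1) (u' 1) (-4) ![0, 1, 0, 0, 0])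
    (k2 : Q δ (u 2) (u' 2) 1 ![0, 0, 1, 0, 0]) (k3 : Q δ (u 3) (u' 3) (-5) ![0, 0, 0, 1, 0])
    (kt : Q δ t t' 2 ![0, 0, 0, 0, 1]) :
    Q δ (fI u t) (fI u' t') 7 ![10, 0, 5, 10, 8] ∧ Q δ (fJ u t) (fJ u' t') 8 ![1, 9, 6, 0, 1] := by
  have kn1 : Q δ (n1 u) (n1 u') 5 ![0, 1, 8, 1, 0] := by
    unfold n1
    apply Q.congr
    · repeat first
        | exact k0
        | exact k1
        | exact k2
        | exact k3
        | apply Q.add
        | apply Q.sub
        | apply Q.mul
        | apply Q.neg
        | apply Q.pow
        | apply Q.const
    · decide +kernel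
    · decide +kernel
  have kn2 : Q δ (n2 u) (n2 u') 10 ![0, 3, 2, 5, 0] := by
    unfold n2
    apply Q.congr
    · repeat first
        | exact k0
        | exact k1
        | exact k2
        | exact k3
        | apply Q.add
        | apply Q.sub
        | apply Q.mul
        | apply Q.neg
        | apply Q.pow
        | apply Q.const
    · decide +kernel
    · decide +kernel
  have km1 : Q δ (m1 u) (m1 u') 9 ![0, 7, 8, 2, 0] := by
    unfold m1
    apply Q.congr
    · repeat first
        | exact k0
        | exact k1
        | exact k2
        | exact k3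
        | apply Q.add
        | apply Q.sub
        | apply Q.mul
        | apply Q.neg
        | apply Q.pow
        | apply Q.const
    · decide +kernel
    · decide +kernel
  have km2 : Q δ (m2 u) (m2 u') 7 ![0, 4, 7, 8, 0] := by
    unfold m2
    apply Q.congr
    · repeat first
        | exact k0
        | exact k1
        | exact k2
        | exact k3
        | apply Q.add
        | apply Q.sub
        | apply Q.mul
        | apply Q.neg
        | apply Q.pow
        | apply Q.const
    · decide +kernel
    · decide +kernel
  have kpr : Q δ (pr u) (pr u') 3 ![0, 2, 3, 6, 0] := by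
    unfold pr
    apply Q.congr
    · repeat first
        | exact k0
        | exact k1
        | exact k2
        | exact k3
        | apply Q.add
        | apply Q.sub
        | apply Q.mul
        | apply Q.neg
        | apply Q.pow
        | apply Q.const
    · decide +kernel
    · decide +kernel
  have kcc : Q δ (cc u) (cc u') 6 ![0, 9, 6, 7, 0] := by
    unfold cc
    apply Q.congr
    · repeat first
        | exact k0
        | exact k1
        | exact k2
        | exact k3
        | exact kn1
        | exact kn2
        | apply Q.add
        | apply Q.sub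
        | apply Q.mul
        | apply Q.neg
        | apply Q.pow
        | apply Q.const
    · decide +kernel
    · decide +kernel
  have ke2 : Q δ (e2 u) (e2 u') 10 ![3, 3, 2, 10, 0] := by
    unfold e2
    apply Q.congr
    · repeat first
        | exact k0
        | exact k1
        | exact k2
        | exact k3
        | exact kn1
        | exact kn2
        | apply Q.add
        | apply Q.sub
        | apply Q.mul
        | apply Q.neg
        | apply Q.pow
        | apply Q.const
    · decide +kernel
    · decide +kernel
  have ke3 : Q δ (e3 u) (e3 u') 6 ![2, 2, 6, 3, 0] := by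
    unfold e3
    apply Q.congr
    · repeat first
        | exact k0
        | exact k1
        | exact k2
        | exact k3
        | exact kcc
        | exact kpr
        | apply Q.add
        | apply Q.sub
        | apply Q.mul
        | apply Q.neg
        | apply Q.pow
        | apply Q.const
    · decide +kernel
    · decide +kernel
  have kg0 : Q δ (g0 u) (g0 u') 8 ![3, 9, 1, 7, 0] := by
    unfold g0
    apply Q.congr
    · repeat first
        | exact k0
        | exact k1
        | exact k2
        | exact k3
        | exact kn1
        | exact kn2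
        | exact km1
        | exact km2
        | apply Q.add
        | apply Q.sub
        | apply Q.mul
        | apply Q.neg
        | apply Q.pow
        | apply Q.const
    · decide +kernel
    · decide +kernel
  have kl1 : Q δ (l1 u) (l1 u') 3 ![8, 6, 4, 9, 0] := by
    unfold l1
    apply Q.congr
    · repeat first
        | exact k0
        | exact k1
        | exact k2
        | exact k3
        | exact kn1
        | exact kn2
        | apply Q.add
        | apply Q.sub
        | apply Q.mul
        | apply Q.neg
        | apply Q.pow
        | apply Q.const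
    · decide +kernel
    · decide +kernel
  have kd0 : Q δ (d0 u) (d0 u') 8 ![2, 7, 6, 5, 0] := by
    unfold d0
    apply Q.congr
    · repeat first
        | exact k0
        | exact k1
        | exact k2
        | exact k3
        | exact kcc
        | exact kpr
        | exact kn1
        | exact kn2
        | exact km1
        | exact km2
        | apply Q.add
        | apply Q.sub
        | apply Q.mul
        | apply Q.neg
        | apply Q.pow
        | apply Q.const
    · decide +kernel
    · decide +kernel
  have kh3 : Q δ (h3 u) (h3 u') 5 ![3, 0, 7, 8, 0] := by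
    unfold h3
    apply Q.congr
    · repeat first
        | exact k0
        | exact k1
        | exact k2
        | exact k3
        | exact kd0
        | exact kcc
        | exact kl1
        | exact ke2
        | exact ke3
        | apply Q.add
        | apply Q.sub
        | apply Q.mul
        | apply Q.neg
        | apply Q.pow
        | apply Q.const
    · decide +kernel
    · decide +kernel
  have kh2 : Q δ (h2 u) (h2 u') 9 ![6, 1, 1, 3, 0] := by
    unfold h2
    apply Q.congr
    · repeat first
        | exact k0
        | exact k1
        | exact k2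
        | exact k3
        | exact kl1
        | exact kcc
        | exact kd0
        | exact ke2
        | exact ke3
        | exact kg0
        | apply Q.add
        | apply Q.sub
        | apply Q.mul
        | apply Q.neg
        | apply Q.pow
        | apply Q.const
    · decide +kernel
    · decide +kernel
  have kh1 : Q δ (h1 u) (h1 u') 10 ![2, 3, 7, 3, 0] := by
    unfold h1
    apply Q.congr
    · repeat first
        | exact k0
        | exact k1
        | exact k2
        | exact k3
        | exact kl1
        | exact kd0
        | exact ke3
        | exact kcc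
        | exact kg0
        | apply Q.add
        | apply Q.sub
        | apply Q.mul
        | apply Q.neg
        | apply Q.pow
        | apply Q.const
    · decide +kernel
    · decide +kernel
  have kh0 : Q δ (h0 u) (h0 u') 7 ![3, 3, 2, 5, 0] := by
    unfold h0
    apply Q.congr
    · repeat first
        | exact k0
        | exact k1
        | exact k2
        | exact k3
        | exact kd0
        | exact kg0
        | exact kcc
        | apply Q.add
        | apply Q.sub
        | apply Q.mul
        | apply Q.neg
        | apply Q.pow
        | apply Q.const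
    · decide +kernel
    · decide +kernel
  have kq4 : Q δ (q4 t) (q4 t') 8 ![0, 0, 0, 0, 4] := by
    unfold q4
    apply Q.congr
    · repeat first
        | exact kt
        | apply Q.add
        | apply Q.sub
        | apply Q.mul
        | apply Q.neg
        | apply Q.pow
        | apply Q.const
    · decide +kernel
    · decide +kernel
  have kq3 : Q δ (q3 u) (q3 u') 5 ![3, 0, 7, 8, 0] := by
    unfold q3
    apply Q.congr
    · repeat first
        | exact kh3
        | apply Q.add
        | apply Q.sub
        | apply Q.mul
        | apply Q.neg
        | apply Q.pow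
        | apply Q.const
    · decide +kernel
    · decide +kernel
  have kq2 : Q δ (q2 u t) (q2 u' t') 5 ![7, 2, 9, 10, 9] := by
    unfold q2
    apply Q.congr
    · repeat first
        | exact ke2
        | exact kh2
        | exact kt
        | apply Q.add
        | apply Q.sub
        | apply Q.mul
        | apply Q.neg
        | apply Q.pow
        | apply Q.const
    · decide +kernel
    · decide +kernel
  have kq1 : Q δ (q1 u t) (q1 u' t') 8 ![5, 6, 5, 2, 10] := by
    unfold q1
    apply Q.congr
    · repeat first
        | exact ke3
        | exact kh1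
        | exact kt
        | apply Q.add
        | apply Q.sub
        | apply Q.mul
        | apply Q.neg
        | apply Q.pow
        | apply Q.const
    · decide +kernel
    · decide +kernel
  have kq0 : Q δ (q0 u t) (q0 u' t') 10 ![4, 6, 6, 0, 9] := by
    unfold q0
    apply Q.congr
    · repeat first
        | exact kg0
        | exact kh0
        | exact kt
        | apply Q.add
        | apply Q.sub
        | apply Q.mul
        | apply Q.neg
        | apply Q.pow
        | apply Q.const
    · decide +kernel
    · decide +kernel
  have kfI : Q δ (fI u t) (fI u' t') 7 ![10, 0, 5, 10, 8] := by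
    unfold fI
    apply Q.congr
    · repeat first
        | exact kq4
        | exact kq3
        | exact kq2
        | exact kq1
        | exact kq0
        | apply Q.add
        | apply Q.sub
        | apply Q.mul
        | apply Q.neg
        | apply Q.pow
        | apply Q.const
    · decide +kernel
    · decide +kernel
  have kfJ : Q δ (fJ u t) (fJ u' t') 8 ![1, 9, 6, 0, 1] := by
    unfold fJ
    apply Q.congr
    · repeat first
        | exact kq4
        | exact kq3
        | exact kq2
        | exact kq1
        | exact kq0
        | apply Q.add
        | apply Q.sub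
        | apply Q.mul
        | apply Q.neg
        | apply Q.pow
        | apply Q.const
    · decide +kernel
    · decide +kernel
  exact ⟨kfI, kfJ⟩

def M5 : Matrix (Fin 5) (Fin 5) (ZMod 11) := !![10, 6, 0, 0, 7; 10, 10, 5, 7, 1; 10, 0, 5, 10, 8; 4, 1, 5, 4, 6; 2, 4, 6, 7, 9]
def N5 : Matrix (Fin 5) (Fin 5) (ZMod 11) := !![9, 0, 0, 9, 9; 4, 2, 10, 6, 7; 2, 9, 6, 10, 5; 7, 3, 6, 7, 5; 9, 3, 4, 4, 0]

theorem mul5 : M5 * N5 = 1 := by decide +kernel

theorem det5 : M5.det ≠ 0 := by
  intro h
  have h1 : (M5 * N5).det = 1 := by rw [mul5, Matrix.det_one]
  rw [Matrix.det_mul, h, zero_mul] at h1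
  exact absurd h1 (by decide)

end S70

open S70

theorem st_INJ : ST_INJ := by
  intro w w' hw hw' β hβ h
  have hM : (11 : ℤ) ∣ MM := by
    have h11 : (11 : ℕ) ∣ Nat.factorial QQ :=
      Nat.dvd_factorial (by norm_num) (by unfold QQ; omega)
    exact (Int.natCast_dvd_natCast.2 h11).mul_left _
  set δ : Fin 5 → ℤ := ![w'.1 0 - w.1 0, w'.1 1 - w.1 1, w'.1 2 - w.1 2, w'.1 3 - w.1 3, β] with hδ
  have A : ∀ i, (11 : ℤ) ∣ w.1 i - ub i := fun i => hM.trans (hw.1 i)
  have B : ∀ i, (11 : ℤ) ∣ w'.1 i - ub i := fun i => hM.trans (hw'.1 i)
  have k0 : Q δ (w.1 0) (w'.1 0) 1 ![1, 0, 0, 0, 0] :=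
    ⟨A 0, B 0, ![1, 0, 0, 0, 0], by simp [hδ, Fin.sum_univ_five], fun i => by simp⟩
  have k1 : Q δ (w.1 1) (w'.1 1) (-4) ![0, 1, 0, 0, 0] :=
    ⟨A 1, B 1, ![0, 1, 0, 0, 0], by simp [hδ, Fin.sum_univ_five], fun i => by simp⟩
  have k2 : Q δ (w.1 2) (w'.1 2) 1 ![0, 0, 1, 0, 0] :=
    ⟨A 2, B 2, ![0, 0, 1, 0, 0], by simp [hδ, Fin.sum_univ_five], fun i => by simp⟩
  have k3 : Q δ (w.1 3) (w'.1 3) (-5) ![0, 0, 0, 1, 0] :=
    ⟨A 3, B 3, ![0, 0, 0, 1, 0], by simp [hδ, Fin.sum_univ_five], fun i => by simp⟩
  have kt : ∀ τ : ℤ, Q δ τ (τ + β) τ ![0, 0, 0, 0, 1] := fun τ =>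
    ⟨by simp, by simpa using hβ, ![0, 0, 0, 0, 1], by simp [hδ, Fin.sum_univ_five],
      fun i => by simp⟩
  obtain ⟨⟨_, _, D0, a0, b0⟩, ⟨_, _, D3, a3, b3⟩⟩ := lin0 k0 k1 k2 k3 (kt 0)
  obtain ⟨⟨_, _, D1, a1, b1⟩, ⟨_, _, D4, a4, b4⟩⟩ := lin1 k0 k1 k2 k3 (kt 1)
  obtain ⟨⟨_, _, D2, a2, b2⟩, -⟩ := lin2 k0 k1 k2 k3 (kt 2)
  have z0 := (h 0).1
  have z1 := (h 1).1
  have z2 := (h 2).1
  have z3 := (h 0).2
  have z4 := (h 1).2
  rw [z0, sub_self] at a0
  rw [z1, sub_self] at a1
  rw [z2, sub_self] at a2
  rw [z3, sub_self] at a3
  rw [z4, sub_self] at a4
  set E : Matrix (Fin 5) (Fin 5) ℤ := Matrix.of ![D0, D1, D2, D3, D4] with hE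
  have hE0 : E.mulVec δ = 0 := by
    funext i
    fin_cases i
    · exact a0.symm
    · exact a1.symm
    · exact a2.symm
    · exact a3.symm
    · exact a4.symm
  have key : ∀ x y : ℤ, (11 : ℤ) ∣ x - y → ((x : ℤ) : ZMod 11) = (y : ZMod 11) := by
    intro x y hxy
    have := (ZMod.intCast_zmod_eq_zero_iff_dvd (x - y) 11).2 (by exact_mod_cast hxy)
    rwa [Int.cast_sub, sub_eq_zero] at this
  have hmap : E.map (Int.cast : ℤ → ZMod 11) = M5 := by
    ext i j
    fin_cases i
    · exact (key _ _ (b0 j)).trans (by fin_cases j <;> rfl)
    · exact (key _ _ (b1 j)).trans (by fin_cases j <;> rfl)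
    · exact (key _ _ (b2 j)).trans (by fin_cases j <;> rfl)
    · exact (key _ _ (b3 j)).trans (by fin_cases j <;> rfl)
    · exact (key _ _ (b4 j)).trans (by fin_cases j <;> rfl)
  have hdet : E.det ≠ 0 := by
    intro h0
    have h1 : ((E.det : ℤ) : ZMod 11) = M5.det := by
      rw [← hmap]
      exact RingHom.map_det (Int.castRingHom (ZMod 11)) E
    rw [h0, Int.cast_zero] at h1
    exact det5 h1.symm
  have hz := Matrix.eq_zero_of_mulVec_eq_zero hdet hE0
  funext i
  have q0' := congrFun hz 0
  have q1' := congrFun hz 1
  have q2' := congrFun hz 2
  have q3' := congrFun hz 3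
  simp [hδ] at q0' q1' q2' q3'
  fin_cases i
  · show w.1 0 = w'.1 0
    linarith
  · show w.1 1 = w'.1 1
    linarith
  · show w.1 2 = w'.1 2
    linarith
  · show w.1 3 = w'.1 3
    linarith

end Pool.Helper70.RN
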