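import Mathlib
import Pool.Agent.Helper70.RN.Sheet
import Pool.Agent.Helper25.RN.BND

/-! # Row WIN (rank nine, four parameters) -/

set_option autoImplicit false

namespace Pool.Helper70.RN

namespace W70

open Pool.Helper70.RN.S25

section
variable (v : Tp → Fin 4 → ℤ) (hv : ∀ i, BO 3 (fun _ T => v T i))
variable (t : ℕ → Tp → ℤ) (ht : BO 16 t)
include hv ht

theorem bo_RI : BO 44 (fun m T => fI (v T) (t m T) - 48 * (t m T) ^ 3) := by
  have tt : BO 32 (fun m T => t m T * t m T) := ht.mul ht (by omega)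
  refine ((((BO.cmul 96 ((bo_g0 v hv).mul tt (by omega))).add
    ((BO.cmul 48 ((bo_h0 v hv).mul ht (l := 40) (by omega))).mono (by omega))).sub
    ((BO.cmul 3 ((bo_h3 v hv).mul (bo_q1 v hv t ht) (l := 40) (by omega))).mono (by omega))).add
    ((bo_q2 v hv t ht).mul (bo_q2 v hv t ht) (by omega))).congr (fun m T => ?_)
  unfold fI q4 q3 q0
  ring

theorem bo_RJ : BO 66 (fun m T => fJ (v T) (t m T) - 576 * e2 (v T) * (t m T) ^ 4) := by
  have tt : BO 32 (fun m T => t m T * t m T) := ht.mul ht (by omega)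
  have a3 := bo_h3 v hv
  have a2 := bo_q2 v hv t ht
  have a1 := bo_q1 v hv t ht
  have a0 := bo_q0 v hv t ht
  have a4 : BO 16 (fun m T => q4 (t m T)) := (BO.cmul 4 ht).congr (fun _ _ => rfl)
  have b1 : BO 28 (fun m T => 2 * (g0 (v T) * t m T) + h0 (v T)) :=
    (BO.cmul 2 ((bo_g0 v hv).mul ht (by omega))).add ((bo_h0 v hv).mono (by omega))
  refine (((((((BO.cmul 576 (((bo_e2 v hv).mul tt (l := 38) (by omega)).mul b1 (by omega))).add
    (BO.cmul 288 (((bo_h2 v hv).mul ht (l := 34) (by omega)).mul a0 (by omega)))).add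
    ((BO.cmul 9 ((a3.mul a2 (l := 37) (by omega)).mul a1 (l := 62) (by omega))).mono
      (by omega))).sub
    (BO.cmul 27 (a4.mul (a1.mul a1 (l := 50) (by omega)) (by omega)))).sub
    ((BO.cmul 27 (a0.mul (a3.mul a3 (l := 30) (by omega)) (l := 62) (by omega))).mono
      (by omega))).sub
    (BO.cmul 2 (a2.mul (a2.mul a2 (l := 44) (by omega)) (by omega))))).congr (fun m T => ?_)
  unfold fJ q3 q4 q2 q1 q0
  ring

end

/-- the elementary part: `M = m` -/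
theorem core (C : ℤ) (hC : 0 ≤ C) (M t t' e e' rI rI' rJ rJ' : ℤ) (hM : 1 ≤ M)
    (ht : M ^ 16 ≤ t) (ht' : M ^ 16 ≤ t') (htC : t ≤ C * M ^ 16) (htC' : t' ≤ C * M ^ 16)
    (he' : |e'| ≤ C * M ^ 6)
    (hI : |rI| ≤ C * M ^ 44) (hI' : |rI'| ≤ C * M ^ 44) (hJ : |rJ| ≤ C * M ^ 66)
    (hJ' : |rJ'| ≤ C * M ^ 66)
    (E1 : 48 * t ^ 3 + rI = 48 * t' ^ 3 + rI')
    (E2 : 576 * e * t ^ 4 + rJ = 576 * e' * t' ^ 4 + rJ') :
    |e - e'| ≤ (2 * C + 4 * C * (2 * C) * C ^ 3) * M ^ 2 := by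
  have hMp : ∀ k : ℕ, (0 : ℤ) < M ^ k := fun k => pow_pos (by linarith) k
  have t0 : 0 < t := lt_of_lt_of_le (hMp 16) ht
  have t0' : 0 < t' := lt_of_lt_of_le (hMp 16) ht'
  -- the difference of `t`
  have d1 : |t - t'| * M ^ 32 ≤ 2 * C * M ^ 44 := by
    have h1 : 48 * ((t - t') * (t ^ 2 + t * t' + t' ^ 2)) = rI' - rI := by linear_combination E1
    have h2 : |rI' - rI| ≤ 2 * C * M ^ 44 := by
      have := abs_sub rI' rI
      linarith
    have h3 : M ^ 32 ≤ t ^ 2 + t * t' + t' ^ 2 := by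
      have h4 : (M ^ 16) ^ 2 ≤ t ^ 2 := pow_le_pow_left₀ (hMp 16).le ht 2
      have h5 : (M ^ 16) ^ 2 = M ^ 32 := by ring
      have h6 : 0 < t * t' := mul_pos t0 t0'
      have h7 : 0 < t' ^ 2 := pow_pos t0' 2
      linarith
    have h8 : 0 ≤ t ^ 2 + t * t' + t' ^ 2 := le_trans (hMp 32).le h3
    have h9 : |t - t'| * (t ^ 2 + t * t' + t' ^ 2) ≤ 2 * C * M ^ 44 := by
      have h10 : |48 * ((t - t') * (t ^ 2 + t * t' + t' ^ 2))| =
          48 * (|t - t'| * (t ^ 2 + t * t' + t' ^ 2)) := by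
        rw [abs_mul, abs_mul, abs_of_nonneg h8, abs_of_pos (by norm_num : (0 : ℤ) < 48)]
      rw [← h1, h10] at h2
      have h11 : 0 ≤ |t - t'| * (t ^ 2 + t * t' + t' ^ 2) := mul_nonneg (abs_nonneg _) h8
      linarith
    exact le_trans (mul_le_mul_of_nonneg_left h3 (abs_nonneg _)) h9
  have d2 : |t - t'| ≤ 2 * C * M ^ 12 := by
    have h1 : |t - t'| * M ^ 32 ≤ (2 * C * M ^ 12) * M ^ 32 := by
      refine d1.trans (le_of_eq ?_)
      ring
    exact le_of_mul_le_mul_right h1 (hMp 32)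
  -- the fourth powers
  have d3 : |t ^ 4 - t' ^ 4| ≤ (2 * C * M ^ 12) * (4 * (C * M ^ 16) ^ 3) := by
    have h1 : t ^ 4 - t' ^ 4 = (t - t') * (t ^ 3 + t ^ 2 * t' + t * t' ^ 2 + t' ^ 3) := by ring
    have hc : 0 ≤ C * M ^ 16 := mul_nonneg hC (hMp 16).le
    have p0 : t ^ 3 ≤ (C * M ^ 16) ^ 3 := pow_le_pow_left₀ t0.le htC 3
    have p3 : t' ^ 3 ≤ (C * M ^ 16) ^ 3 := pow_le_pow_left₀ t0'.le htC' 3
    have p1 : t ^ 2 * t' ≤ (C * M ^ 16) ^ 3 := by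
      have := mul_le_mul (pow_le_pow_left₀ t0.le htC 2) htC' t0'.le (pow_nonneg hc 2)
      refine this.trans (le_of_eq (by ring))
    have p2 : t * t' ^ 2 ≤ (C * M ^ 16) ^ 3 := by
      have := mul_le_mul htC (pow_le_pow_left₀ t0'.le htC' 2) (pow_nonneg t0'.le 2) hc
      refine this.trans (le_of_eq (by ring))
    have hs : 0 ≤ t ^ 3 + t ^ 2 * t' + t * t' ^ 2 + t' ^ 3 := by positivity
    rw [h1, abs_mul, abs_of_nonneg hs]
    exact mul_le_mul d2 (by linarith) hs (mul_nonneg (mul_nonneg (by norm_num) hC) (hMp 12).le)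
  -- the end
  have h1 : 576 * ((e - e') * t ^ 4) = (rJ' - rJ) - 576 * (e' * (t ^ 4 - t' ^ 4)) := by
    linear_combination E2
  have h2 : |rJ' - rJ| ≤ 2 * C * M ^ 66 := by
    have := abs_sub rJ' rJ
    linarith
  have h3 : |e' * (t ^ 4 - t' ^ 4)| ≤ 4 * C * (2 * C) * C ^ 3 * M ^ 66 := by
    rw [abs_mul]
    have hb : 0 ≤ C * M ^ 6 := mul_nonneg hC (hMp 6).le
    refine (mul_le_mul he' d3 (abs_nonneg _) hb).trans (le_of_eq ?_)
    ring
  have h4 : 576 * (|e - e'| * t ^ 4) ≤ 2 * C * M ^ 66 + 576 * (4 * C * (2 * C) * C ^ 3 * M ^ 66) := by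
    have h5 : |576 * ((e - e') * t ^ 4)| = 576 * (|e - e'| * t ^ 4) := by
      rw [abs_mul, abs_mul, abs_of_pos (pow_pos t0 4), abs_of_pos (by norm_num : (0 : ℤ) < 576)]
    rw [← h5, h1]
    refine (abs_sub _ _).trans ?_
    have h6 : |576 * (e' * (t ^ 4 - t' ^ 4))| = 576 * |e' * (t ^ 4 - t' ^ 4)| := by
      rw [abs_mul, abs_of_pos (by norm_num : (0 : ℤ) < 576)]
    rw [h6]
    linarith
  have h7 : |e - e'| * M ^ 64 ≤ |e - e'| * t ^ 4 := by
    have h8 : (M ^ 16) ^ 4 ≤ t ^ 4 := pow_le_pow_left₀ (hMp 16).le ht 4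
    have h9 : (M ^ 16) ^ 4 = M ^ 64 := by ring
    rw [h9] at h8
    exact mul_le_mul_of_nonneg_left h8 (abs_nonneg _)
  have h10 : |e - e'| * M ^ 64 ≤ ((2 * C + 4 * C * (2 * C) * C ^ 3) * M ^ 2) * M ^ 64 := by
    have h11 : ((2 * C + 4 * C * (2 * C) * C ^ 3) * M ^ 2) * M ^ 64 =
        2 * C * M ^ 66 + 4 * C * (2 * C) * C ^ 3 * M ^ 66 := by ring
    rw [h11]
    have h12 : 0 ≤ 2 * C * M ^ 66 := mul_nonneg (mul_nonneg (by norm_num) hC) (hMp 66).le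
    linarith
  exact le_of_mul_le_mul_right h10 (hMp 64)

theorem t_low (M m r : ℤ) (hM : 1 ≤ M) (hm : 1 ≤ m) (hr : 0 ≤ r) :
    m ^ 16 ≤ (15 + M * (m ^ 8 + r)) ^ 2 := by
  have h1 : (0 : ℤ) < m ^ 8 := pow_pos (by linarith) 8
  have h2 : 1 * (m ^ 8 + r) ≤ M * (m ^ 8 + r) := mul_le_mul_of_nonneg_right hM (by linarith)
  have h3 : m ^ 8 ≤ 15 + M * (m ^ 8 + r) := by linarith
  have h4 := pow_le_pow_left₀ h1.le h3 2
  have h5 : (m ^ 8) ^ 2 = m ^ 16 := by ring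
  linarith

theorem t_low' (m : ℕ) (hm : 1 ≤ m) (T : Tp) (hM : 1 ≤ MM) :
    (m : ℤ) ^ 16 ≤ (ww m T).2 ^ 2 :=
  t_low MM m (T.2 : ℤ) hM (by exact_mod_cast hm) (Int.natCast_nonneg _)

theorem MM_pos : 1 ≤ MM := by
  unfold MM
  generalize QQ = Q
  have : 0 < Q.factorial := Nat.factorial_pos Q
  have h : (1 : ℤ) ≤ (Q.factorial : ℤ) := by exact_mod_cast this
  linarith

end W70

open W70 Pool.Helper70.RN.S25 in
/-- Row WIN. -/
theorem st_WIN (hR : ST_REL) : ST_WIN := by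
  obtain ⟨C1, hC1, H1⟩ := bo_RI (fun T => uu T.1) bo_u _ bo_t
  obtain ⟨C2, hC2, H2⟩ := bo_RJ (fun T => uu T.1) bo_u _ bo_t
  obtain ⟨C3, hC3, H3⟩ := bo_t
  obtain ⟨C4, hC4, H4⟩ := bo_e2 (fun T => uu T.1) bo_u
  have hM := MM_pos
  obtain ⟨C, hC⟩ : ∃ C : ℤ, C = C1 + C2 + C3 + C4 + 1 := ⟨_, rfl⟩
  have hCp : 1 ≤ C := by linarith
  refine ⟨2 * C + 4 * C * (2 * C) * C ^ 3, ?_, fun m hm T hT T' hT' hA hB => ?_⟩
  · have : 0 ≤ 4 * C * (2 * C) * C ^ 3 := by positivity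
    linarith
  have up : ∀ (D : ℤ) (k : ℕ) (x : ℤ), D ≤ C → x ≤ D * (m : ℤ) ^ k → x ≤ C * (m : ℤ) ^ k := by
    intro D k x hD hx
    exact hx.trans (mul_le_mul_of_nonneg_right hD (pow_nonneg (Int.natCast_nonneg m) k))
  have hm1 : (1 : ℤ) ≤ (m : ℤ) := by exact_mod_cast hm
  have r1 := (hR (ww m T) (cong_ww m T))
  have r2 := (hR (ww m T') (cong_ww m T'))
  have EI : fI (ww m T).1 ((ww m T).2 ^ 2) = fI (ww m T').1 ((ww m T').2 ^ 2) := by
    have a := r1.1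
    have b := r2.1
    rw [hA] at a
    linarith
  have EJ : fJ (ww m T).1 ((ww m T).2 ^ 2) = fJ (ww m T').1 ((ww m T').2 ^ 2) := by
    have a := r1.2.1
    have b := r2.2.1
    rw [hB] at a
    linarith
  have tl := t_low' m hm T hM
  have tl' := t_low' m hm T' hM
  have tu := up C3 16 _ (by linarith) (H3 m hm T hT)
  have tu' := up C3 16 _ (by linarith) (H3 m hm T' hT')
  have eu' := up C4 6 _ (by linarith) (H4 m hm T' hT')
  have i1 := up C1 44 _ (by linarith) (H1 m hm T hT)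
  have i1' := up C1 44 _ (by linarith) (H1 m hm T' hT')
  have j1 := up C2 66 _ (by linarith) (H2 m hm T hT)
  have j1' := up C2 66 _ (by linarith) (H2 m hm T' hT')
  refine core C (by linarith) (m : ℤ) _ _ _ _ _ _ _ _ hm1 tl tl' ((le_abs_self _).trans tu)
    ((le_abs_self _).trans tu') eu' i1 i1' j1 j1' ?_ ?_
  · have h : ∀ a b x y : ℤ, x = y → a + (x - a) = b + (y - b) := by
      intro a b x y h
      rw [h]
      ring
    exact h _ _ _ _ EI
  · have h : ∀ a b x y : ℤ, x = y → a + (x - a) = b + (y - b) := by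
      intro a b x y h
      rw [h]
      ring
    exact h _ _ _ _ EJ

end Pool.Helper70.RN
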